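import Mathlib
import Pool.Agent.R440.WZ
import Pool.Agent.R440.Loc

/-!
# Alternating integrality of the normalised (28k+3) sums

A WZ pair gives `a_n = ∑_{k<n} t(k, n-1-k)` where, with `n = k+m+1` and the half-integer
Gamma quotient `hg x = Γ(x+1/2)/√π`,
`t(k,m) = -8·4096^{k+m} (2k+1) hg(5k+2m+2) hg(2m-k-1) hg(n)² (n-1)! n! / (m!(2k+m+1)!(4n-2)!(2n+1)!)`.
By a Legendre-type count `t(k,m)` is `p`-integral if `p` is odd and `p ∤ 2n+1`.  If `p ∣ 2n+1` we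
subtract a telescoping sum (`t(k,m)` telescopes modulo `2n+1`).  The prime `2` is handled
directly from the definition, and the sign by the fast decrease of the series.
-/

set_option autoImplicit false

namespace Pool.Agent.Results.MP_14414a_nt.SignedIntegrality

open Finset Nat Pool.Agent.R440

/-- the summands of the transformed sum -/
noncomputable def T (n k : ℕ) : ℚ :=
  - 16 * 4096 ^ (n - 1) * (2 * (k : ℚ) + 1) * hg (2 * (n : ℤ) + 3 * k) *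
    hg (2 * (n : ℤ) - 3 * k - 3) * hg (n : ℤ) ^ 2 *
    rf ((n : ℤ) - 1 - k) * rf ((n : ℤ) + k) / ((4 * n - 2)! : ℚ)

/-- the certificate -/
noncomputable def R (n k : ℕ) : ℚ :=
  4096 ^ n * hg (2 * (n : ℤ) + 3 * k) * hg (2 * (n : ℤ) - 3 * k) * hg (n : ℤ) ^ 2 *
    rf ((n : ℤ) - k) * rf ((n : ℤ) + k) / ((4 * n + 2)! : ℚ) *
    (24 * (2 * n + 1) * (k : ℚ) ^ 2 - (4 * n + 1) * (4 * n + 2) * (28 * n + 3))

theorem hg2 (x : ℤ) : hg (x + 2) = ((x : ℚ) + 3 / 2) * ((x : ℚ) + 1 / 2) * hg x := by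
  rw [show x + 2 = x + 1 + 1 by ring, hg_step, hg_step]; push_cast; ring

theorem hg3 (x : ℤ) : hg (x + 3) = ((x : ℚ) + 5 / 2) * ((x : ℚ) + 3 / 2) * ((x : ℚ) + 1 / 2) * hg x := by
  rw [show x + 3 = x + 2 + 1 by ring, hg_step, hg2]; push_cast; ring

theorem wz (n k : ℕ) (hn : 1 ≤ n) : T (n + 1) k - (-12288) * T n k = R n (k + 1) - R n k := by
  unfold T R
  have e1 : rf (((n + 1 : ℕ) : ℤ) - 1 - k) = rf ((n : ℤ) - k) := by
    congr 1; push_cast; ring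
  have e2 : rf (((n + 1 : ℕ) : ℤ) + k) = rf ((n : ℤ) + k + 1) := by
    rw [show ((n + 1 : ℕ) : ℤ) + k = (n : ℤ) + k + 1 by push_cast; ring]
  have e3 : rf ((n : ℤ) - 1 - k) = ((n : ℚ) - k) * rf ((n : ℤ) - k) := by
    rw [rf_step, show (n : ℤ) - 1 - k + 1 = (n : ℤ) - k by ring]; push_cast; ring
  have e4 : rf ((n : ℤ) + k) = ((n : ℚ) + k + 1) * rf ((n : ℤ) + k + 1) := by
    rw [rf_step]; push_cast; ring
  have e5 : rf ((n : ℤ) - (k + 1 : ℕ)) = ((n : ℚ) - k) * rf ((n : ℤ) - k) := by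
    rw [← e3]; congr 1; push_cast; ring
  have e6 : rf ((n : ℤ) + (k + 1 : ℕ)) = rf ((n : ℤ) + k + 1) := by
    rw [show (n : ℤ) + (k + 1 : ℕ) = (n : ℤ) + k + 1 by push_cast; ring]
  have g1 : hg (2 * ((n + 1 : ℕ) : ℤ) + 3 * k) = (2 * (n : ℚ) + 3 * k + 3 / 2) *
      (2 * (n : ℚ) + 3 * k + 1 / 2) * hg (2 * (n : ℤ) + 3 * k) := by
    rw [show 2 * ((n + 1 : ℕ) : ℤ) + 3 * k = (2 * (n : ℤ) + 3 * k) + 2 by push_cast; ring, hg2]
    push_cast; ring
  have g2 : hg (2 * ((n + 1 : ℕ) : ℤ) - 3 * k - 3) = (2 * (n : ℚ) - 3 * k - 3 / 2) *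
      (2 * (n : ℚ) - 3 * k - 5 / 2) * hg (2 * (n : ℤ) - 3 * k - 3) := by
    rw [show 2 * ((n + 1 : ℕ) : ℤ) - 3 * k - 3 = (2 * (n : ℤ) - 3 * k - 3) + 2 by push_cast; ring, hg2]
    push_cast; ring
  have g3 : hg ((n + 1 : ℕ) : ℤ) = ((n : ℚ) + 1 / 2) * hg (n : ℤ) := by
    rw [show ((n + 1 : ℕ) : ℤ) = (n : ℤ) + 1 by push_cast; ring, hg_step]
    push_cast; ring
  have g4 : hg (2 * (n : ℤ) + 3 * (k + 1 : ℕ)) = (2 * (n : ℚ) + 3 * k + 5 / 2) *
      (2 * (n : ℚ) + 3 * k + 3 / 2) * (2 * (n : ℚ) + 3 * k + 1 / 2) * hg (2 * (n : ℤ) + 3 * k) := by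
    rw [show 2 * (n : ℤ) + 3 * (k + 1 : ℕ) = (2 * (n : ℤ) + 3 * k) + 3 by push_cast; ring, hg3]
    push_cast; ring
  have g5 : hg (2 * (n : ℤ) - 3 * (k + 1 : ℕ)) = hg (2 * (n : ℤ) - 3 * k - 3) := by
    congr 1; push_cast; ring
  have g6 : hg (2 * (n : ℤ) - 3 * k) = (2 * (n : ℚ) - 3 * k - 1 / 2) *
      (2 * (n : ℚ) - 3 * k - 3 / 2) * (2 * (n : ℚ) - 3 * k - 5 / 2) *
      hg (2 * (n : ℤ) - 3 * k - 3) := by
    rw [show 2 * (n : ℤ) - 3 * k = (2 * (n : ℤ) - 3 * k - 3) + 3 by ring, hg3]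
    push_cast; ring
  have f1 : ((4 * n + 2)! : ℚ) = (4 * n + 2) * (4 * n + 1) * (4 * n) * (4 * n - 1) *
      ((4 * n - 2)! : ℚ) := by
    obtain ⟨j, hj⟩ : ∃ j, 4 * n - 2 = j := ⟨_, rfl⟩
    have hj2 : 4 * n + 2 = j + 1 + 1 + 1 + 1 := by omega
    have hj3 : (4 * (n : ℚ)) = j + 2 := by
      have : 4 * n = j + 2 := by omega
      exact_mod_cast this
    rw [hj, hj2, Nat.factorial_succ, Nat.factorial_succ, Nat.factorial_succ, Nat.factorial_succ, hj3]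
    push_cast; ring
  have f2 : 4 * (n + 1) - 2 = 4 * n + 2 := by omega
  have f3 : (4096 : ℚ) ^ n = 4096 * 4096 ^ (n - 1) := by
    obtain ⟨j, rfl⟩ : ∃ j, n = j + 1 := ⟨n - 1, by omega⟩
    rw [Nat.add_sub_cancel, pow_succ]; ring
  have f4 : n + 1 - 1 = n := rfl
  have f5 : ((4 * n - 2)! : ℚ)⁻¹ = (4 * n + 2) * (4 * n + 1) * (4 * n) * (4 * n - 1) *
      ((4 * n + 2)! : ℚ)⁻¹ := by
    rw [← div_eq_mul_inv, eq_div_iff (by positivity), f1]
    have z1 : ((4 * n - 2)! : ℚ) ≠ 0 := by positivity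
    field_simp
  rw [e1, e2, e3, e4, e5, e6, g1, g2, g3, g4, g5, g6, f2, f4, f3]
  simp only [div_eq_mul_inv] at f5 ⊢
  rw [f5]
  clear e1 e2 e3 e4 e5 e6 g1 g2 g3 g4 g5 g6 f1 f2 f3 f4 f5
  generalize hg (2 * (n : ℤ) + 3 * k) = H1
  generalize hg (2 * (n : ℤ) - 3 * k - 3) = H2
  generalize hg (n : ℤ) = H3
  generalize rf ((n : ℤ) - k) = H4
  generalize rf ((n : ℤ) + k + 1) = H5
  generalize ((4 * n + 2)! : ℚ)⁻¹ = H6
  push_cast
  ring

/-- the multinomial coefficient `(4k)!/(k!)^4` -/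
noncomputable def M (k : ℕ) : ℚ := ((4 * k)! : ℚ) / (k ! : ℚ) ^ 4

/-- the numbers `a_n` -/
noncomputable def a (n : ℕ) : ℚ :=
  (∑ k ∈ range n, (28 * (k : ℚ) + 3) * M k * (-12288) ^ (n - 1 - k)) /
    (2 * n * (2 * n + 1) * ((2 * n).choose n : ℚ))

theorem R_zero (n : ℕ) : R n 0 = - ((28 * (n : ℚ) + 3) * M n) := by
  have h1 : rf ((n : ℤ) - (0 : ℕ)) = 1 / (n ! : ℚ) := by
    rw [← rf_nat n]; simp
  have h2 : rf ((n : ℤ) + (0 : ℕ)) = 1 / (n ! : ℚ) := by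
    rw [← rf_nat n]; simp
  have h3 : hg (2 * (n : ℤ) + 3 * (0 : ℕ)) = ((4 * n)! : ℚ) / (16 ^ n * (2 * n)!) := by
    rw [show 2 * (n : ℤ) + 3 * (0 : ℕ) = ((2 * n : ℕ) : ℤ) by push_cast; ring, hg_nat,
      show 2 * (2 * n) = 4 * n by ring, pow_mul]
    norm_num
  have h4 : hg (2 * (n : ℤ) - 3 * (0 : ℕ)) = ((4 * n)! : ℚ) / (16 ^ n * (2 * n)!) := by
    rw [← h3]; congr 1
  have h5 : ((4 * n + 2)! : ℚ) = (4 * n + 2) * (4 * n + 1) * ((4 * n)! : ℚ) := by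
    rw [Nat.factorial_succ, Nat.factorial_succ]; push_cast; ring
  have h6 : (4096 : ℚ) ^ n = 16 ^ n * 16 ^ n * 4 ^ n * 4 ^ n := by
    rw [← mul_pow, ← mul_pow, ← mul_pow]; norm_num
  unfold R M
  rw [h1, h2, h3, h4, h5, h6, hg_nat]
  have z2 : (n ! : ℚ) ≠ 0 := by positivity
  have z3 : ((2 * n)! : ℚ) ≠ 0 := by positivity
  have z4 : ((4 * n)! : ℚ) ≠ 0 := by positivity
  have z5 : (4 * (n : ℚ) + 2) ≠ 0 := by positivity
  have z6 : (4 * (n : ℚ) + 1) ≠ 0 := by positivity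
  simp only [Nat.cast_zero]
  field_simp
  ring

theorem R_top (n : ℕ) : R n (n + 1) = 0 := by
  unfold R
  rw [rf_neg (by push_cast; omega : (n : ℤ) - ((n + 1 : ℕ) : ℤ) < 0)]
  ring

theorem T_top (n : ℕ) : T n n = 0 := by
  unfold T
  rw [rf_neg (by omega : (n : ℤ) - 1 - n < 0)]
  ring

theorem T_one : T 1 0 = (28 * ((0 : ℕ) : ℚ) + 3) * M 0 := by
  have h1 : rf (((1 : ℕ) : ℤ) - 1 - (0 : ℕ)) = 1 := by
    rw [show ((1 : ℕ) : ℤ) - 1 - (0 : ℕ) = 0 by norm_num]; exact rf_zero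
  have h2 : rf (((1 : ℕ) : ℤ) + (0 : ℕ)) = 1 := by
    rw [show ((1 : ℕ) : ℤ) + (0 : ℕ) = ((1 : ℕ) : ℤ) by norm_num, rf_nat]; simp
  have h3 : hg (2 * ((1 : ℕ) : ℤ) + 3 * (0 : ℕ)) = 3 / 4 := by
    rw [show 2 * ((1 : ℕ) : ℤ) + 3 * (0 : ℕ) = ((2 : ℕ) : ℤ) by norm_num, hg_nat]
    norm_num [Nat.factorial]
  have h4 : hg (2 * ((1 : ℕ) : ℤ) - 3 * (0 : ℕ) - 3) = -2 := by
    rw [show 2 * ((1 : ℕ) : ℤ) - 3 * (0 : ℕ) - 3 = -((1 : ℕ) : ℤ) by norm_num, hg_neg]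
    norm_num [Nat.factorial]
  have h5 : hg ((1 : ℕ) : ℤ) = 1 / 2 := by
    rw [hg_nat]
    norm_num [Nat.factorial]
  unfold T M
  rw [h1, h2, h3, h4, h5]
  norm_num [Nat.factorial]

/-- the common part of the terms, `n = k + m + 1` -/
noncomputable def core (k m : ℕ) : ℚ :=
  (hg (5 * (k : ℤ) + 2 * m + 2) * hg (2 * (m : ℤ) - k - 1) * hg ((k : ℤ) + m + 1) *
    hg ((k : ℤ) + m + 1) * ((k + m)! : ℚ) * ((k + m + 1)! : ℚ)) /
    ((m ! : ℚ) * ((2 * k + m + 1)! : ℚ) * ((4 * k + 4 * m + 2)! : ℚ) * ((2 * k + 2 * m + 3)! : ℚ))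

/-- the terms, indexed by `k` and `m = n - 1 - k` -/
noncomputable def t (k m : ℕ) : ℚ := - 8 * 4096 ^ (k + m) * ((2 * (k : ℚ) + 1) * core k m)

theorem norm_eq (n : ℕ) : 2 * ((n + 1 : ℕ) : ℚ) * (2 * ((n + 1 : ℕ) : ℚ) + 1) *
    ((2 * (n + 1)).choose (n + 1) : ℚ) = 2 * ((2 * n + 3)! : ℚ) / ((n ! : ℚ) * ((n + 1)! : ℚ)) := by
  rw [choose_two_mul, show 2 * n + 3 = 2 * (n + 1) + 1 by ring, Nat.factorial_succ (2 * (n + 1)),
    Nat.factorial_succ n]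
  have z1 : (n ! : ℚ) ≠ 0 := by positivity
  have z2 : ((n : ℚ) + 1) ≠ 0 := by positivity
  push_cast
  field_simp

theorem a_eq (n : ℕ) (hn : 1 ≤ n) : a n = ∑ i ∈ range n, t i (n - 1 - i) := by
  have hS := wz_sum' (-12288) (fun k => (28 * (k : ℚ) + 3) * M k) T R (fun n k h1 _ => wz n k h1)
    (fun n _ => R_zero n) (fun n _ => R_top n) (fun n _ => T_top n) T_one n hn
  have hc : (0 : ℚ) < 2 * n * (2 * n + 1) * ((2 * n).choose n : ℚ) := by
    have h1 : 0 < (2 * n).choose n := Nat.choose_pos (by omega)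
    positivity
  unfold a
  rw [hS, Finset.sum_div]
  refine Finset.sum_congr rfl fun i hi => ?_
  have hi' := Finset.mem_range.mp hi
  obtain ⟨m, hm⟩ : ∃ m, n = i + m + 1 := ⟨n - 1 - i, by omega⟩
  subst hm
  rw [norm_eq]
  have h1 : rf (((i + m + 1 : ℕ) : ℤ) - 1 - i) = 1 / (m ! : ℚ) := by
    rw [show ((i + m + 1 : ℕ) : ℤ) - 1 - i = (m : ℤ) by push_cast; ring, rf_nat]
  have h2 : rf (((i + m + 1 : ℕ) : ℤ) + i) = 1 / ((2 * i + m + 1)! : ℚ) := by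
    rw [show ((i + m + 1 : ℕ) : ℤ) + i = ((2 * i + m + 1 : ℕ) : ℤ) by push_cast; ring, rf_nat]
  have h3 : 4 * (i + m + 1) - 2 = 4 * i + 4 * m + 2 := by omega
  have h4 : i + m + 1 - 1 - i = m := by omega
  have h5 : hg (2 * ((i + m + 1 : ℕ) : ℤ) + 3 * i) = hg (5 * (i : ℤ) + 2 * m + 2) := by
    congr 1; push_cast; ring
  have h6 : hg (2 * ((i + m + 1 : ℕ) : ℤ) - 3 * i - 3) = hg (2 * (m : ℤ) - i - 1) := by
    congr 1; push_cast; ring
  have h7 : hg ((i + m + 1 : ℕ) : ℤ) = hg ((i : ℤ) + m + 1) := by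
    congr 1
  have h8 : i + m + 1 - 1 = i + m := rfl
  unfold T t core
  rw [h1, h2, h3, h4, h5, h6, h7, h8, show 2 * (i + m) + 3 = 2 * i + 2 * m + 3 by ring]
  have z1 : (m ! : ℚ) ≠ 0 := by positivity
  have z2 : ((i + m)! : ℚ) ≠ 0 := by positivity
  have z3 : ((2 * i + 2 * m + 3)! : ℚ) ≠ 0 := by positivity
  have z4 : ((2 * i + m + 1)! : ℚ) ≠ 0 := by positivity
  have z5 : ((4 * i + 4 * m + 2)! : ℚ) ≠ 0 := by positivity
  field_simp
  ring

/-- boundary terms of the second transformation -/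
noncomputable def A (n k : ℕ) : ℚ :=
  -(4 / 3) * 4096 ^ (n - 1) * hg (2 * (n : ℤ) + 3 * k) * hg (2 * (n : ℤ) - 3 * k) *
    hg (n : ℤ) ^ 2 * rf ((n : ℤ) - 1 - k) * rf ((n : ℤ) + k - 1) * ((n - 1)! : ℚ) * (n ! : ℚ) /
    (((4 * n - 2)! : ℚ) * ((2 * n + 1)! : ℚ))

/-- the terms of the second transformation -/
noncomputable def E (k m : ℕ) : ℚ :=
  - (1 / 2) * 4096 ^ (k + m) * (33 - 108 * k * (k + 1) + 16 * (k + m + 1) * (7 * (k + m + 1) - 8)) *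
    ((2 * (k : ℚ) + 1) * (2 * (k : ℚ) + 2 * m + 3) * core k m / 3)

theorem t_eq (k m : ℕ) : t k m = A (k + m + 1) k - A (k + m + 1) (k + 1) + E k m := by
  have h1 : rf (((k + m + 1 : ℕ) : ℤ) - 1 - (k + 1 : ℕ)) = (m : ℚ) * (1 / (m ! : ℚ)) := by
    rw [rf_step, show ((k + m + 1 : ℕ) : ℤ) - 1 - (k + 1 : ℕ) + 1 = (m : ℤ) by push_cast; ring, rf_nat]
    push_cast; ring
  have h1' : rf (((k + m + 1 : ℕ) : ℤ) - 1 - k) = 1 / (m ! : ℚ) := by
    rw [show ((k + m + 1 : ℕ) : ℤ) - 1 - k = (m : ℤ) by push_cast; ring, rf_nat]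
  have h2 : rf (((k + m + 1 : ℕ) : ℤ) + (k + 1 : ℕ) - 1) = 1 / ((2 * k + m + 1)! : ℚ) := by
    rw [show ((k + m + 1 : ℕ) : ℤ) + (k + 1 : ℕ) - 1 = ((2 * k + m + 1 : ℕ) : ℤ) by push_cast; ring, rf_nat]
  have h2' : rf (((k + m + 1 : ℕ) : ℤ) + k - 1) = 1 / ((2 * k + m)! : ℚ) := by
    rw [show ((k + m + 1 : ℕ) : ℤ) + k - 1 = ((2 * k + m : ℕ) : ℤ) by push_cast; ring, rf_nat]
  have h3 : 4 * (k + m + 1) - 2 = 4 * k + 4 * m + 2 := by omega
  have h5 : hg (2 * ((k + m + 1 : ℕ) : ℤ) + 3 * k) = hg (5 * (k : ℤ) + 2 * m + 2) := by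
    congr 1; push_cast; ring
  have h6 : hg (2 * ((k + m + 1 : ℕ) : ℤ) - 3 * k) = (2 * (m : ℚ) - k + 3 / 2) *
      (2 * (m : ℚ) - k + 1 / 2) * (2 * (m : ℚ) - k - 1 / 2) * hg (2 * (m : ℤ) - k - 1) := by
    rw [show 2 * ((k + m + 1 : ℕ) : ℤ) - 3 * k = (2 * (m : ℤ) - k - 1) + 3 by push_cast; ring, hg3]
    push_cast; ring
  have h5' : hg (2 * ((k + m + 1 : ℕ) : ℤ) + 3 * (k + 1 : ℕ)) = (5 * (k : ℚ) + 2 * m + 9 / 2) *
      (5 * (k : ℚ) + 2 * m + 7 / 2) * (5 * (k : ℚ) + 2 * m + 5 / 2) * hg (5 * (k : ℤ) + 2 * m + 2) := by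
    rw [show 2 * ((k + m + 1 : ℕ) : ℤ) + 3 * (k + 1 : ℕ) = (5 * (k : ℤ) + 2 * m + 2) + 3 by push_cast; ring, hg3]
    push_cast; ring
  have h6' : hg (2 * ((k + m + 1 : ℕ) : ℤ) - 3 * (k + 1 : ℕ)) = hg (2 * (m : ℤ) - k - 1) := by
    congr 1; push_cast; ring
  have h7 : hg ((k + m + 1 : ℕ) : ℤ) = hg ((k : ℤ) + m + 1) := by
    congr 1
  have h8 : k + m + 1 - 1 = k + m := rfl
  unfold t A E core
  rw [h1, h1', h2, h2', h3, h5, h5', h6, h6', h7, h8, Nat.factorial_succ (2 * k + m),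
    show 2 * (k + m + 1) + 1 = 2 * k + 2 * m + 3 by ring]
  have z1 : (m ! : ℚ) ≠ 0 := by positivity
  have z2 : ((k + m)! : ℚ) ≠ 0 := by positivity
  have z3 : ((2 * k + 2 * m + 3)! : ℚ) ≠ 0 := by positivity
  have z4 : ((2 * k + m)! : ℚ) ≠ 0 := by positivity
  have z5 : ((4 * k + 4 * m + 2)! : ℚ) ≠ 0 := by positivity
  have z6 : (2 * (k : ℚ) + m + 1) ≠ 0 := by positivity
  push_cast
  field_simp
  ring

theorem a_eq' (n : ℕ) (hn : 1 ≤ n) :
    a n = A n 0 + ∑ i ∈ range n, E i (n - 1 - i) := by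
  rw [a_eq n hn]
  have h : ∀ i ∈ range n, t i (n - 1 - i) = E i (n - 1 - i) - (A n (i + 1) - A n i) := by
    intro i hi
    have hi' := Finset.mem_range.mp hi
    have := t_eq i (n - 1 - i)
    rw [show i + (n - 1 - i) + 1 = n by omega] at this
    rw [this]; ring
  rw [Finset.sum_congr rfl h, Finset.sum_sub_distrib, Finset.sum_range_sub (A n) n]
  have hA : A n n = 0 := by
    unfold A
    rw [rf_neg (by omega : (n : ℤ) - 1 - n < 0)]
    ring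
  rw [hA]
  ring

/-- valuation count of `(2k+1) core`, `n = k+m+1`, at the prime power `q` -/
def W (q n k : ℤ) : ℤ :=
  ((2 * k + 1) / q - (2 * k) / q) +
    ((2 * (2 * n + 3 * k) + q) / (2 * q) + (2 * (2 * n - 3 * k - 3) + q) / (2 * q) +
      (2 * n + q) / (2 * q) + (2 * n + q) / (2 * q) + (n - 1) / q + n / q) -
    ((n - 1 - k) / q + (n + k) / q + (4 * n - 2) / q + (2 * n + 1) / q)

theorem W_aux (q n k : ℤ) (hq : 3 ≤ q) (hodd : q % 2 = 1) :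
    (¬ q ∣ (2 * n + 1) → 0 ≤ W q n k) ∧
    (5 ≤ q → 0 ≤ W q n k + ((2 * n + 1) / q - (2 * n) / q)) := by
  have h0 : q ≠ 0 := by omega
  have hq0 : 0 < q := by omega
  have h20 : 2 * q ≠ 0 := by omega
  obtain ⟨b, y, hy0, hy1, rfl⟩ : ∃ b y : ℤ, 0 ≤ y ∧ y < q ∧ k = y + q * b :=
    ⟨k / q, k % q, Int.emod_nonneg _ h0, Int.emod_lt_of_pos _ hq0, (Int.emod_add_mul_ediv k q).symm⟩
  obtain ⟨c, u, hu0, hu1, rfl⟩ : ∃ c u : ℤ, 0 ≤ u ∧ u < q ∧ n = u + q * c :=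
    ⟨n / q, n % q, Int.emod_nonneg _ h0, Int.emod_lt_of_pos _ hq0, (Int.emod_add_mul_ediv n q).symm⟩
  have hdvd : (¬ q ∣ (2 * (u + q * c) + 1)) → 2 * u + 1 ≠ q := by
    intro h h2
    apply h
    refine ⟨1 + 2 * c, ?_⟩
    linear_combination h2
  unfold W
  generalize hD : (¬ q ∣ (2 * (u + q * c) + 1)) = D at *
  rw [show 2 * (y + q * b) + 1 = (2 * y + 1) + q * (2 * b) by ring,
    show 2 * (y + q * b) = 2 * y + q * (2 * b) by ring,
    show 2 * (2 * (u + q * c) + 3 * (y + q * b)) + q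
      = (4 * u + 6 * y + q) + (2 * q) * (2 * c + 3 * b) by ring,
    show 2 * (2 * (u + q * c) - 3 * (y + q * b) - 3) + q
      = (4 * u - 6 * y - 6 + q) + (2 * q) * (2 * c - 3 * b) by ring,
    show 2 * (u + q * c) + q = (2 * u + q) + (2 * q) * c by ring,
    show u + q * c - 1 - (y + q * b) = (u - 1 - y) + q * (c - b) by ring,
    show u + q * c - 1 = (u - 1) + q * c by ring,
    show u + q * c + (y + q * b) = (u + y) + q * (c + b) by ring,
    show 4 * (u + q * c) - 2 = (4 * u - 2) + q * (4 * c) by ring,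
    show 2 * (u + q * c) + 1 = (2 * u + 1) + q * (2 * c) by ring,
    show 2 * (u + q * c) = (2 * u) + q * (2 * c) by ring]
  simp only [Int.add_mul_ediv_left _ _ h0, Int.add_mul_ediv_left _ _ h20]
  rw [Int.ediv_eq_zero_of_lt hu0 hu1]
  obtain ⟨l1, u1, c1, d1⟩ := fl_spec (4 * u + 6 * y + q) (2 * q) 0 5 (by omega) (by linarith) (by linarith)
  obtain ⟨l2, u2, c2, d2⟩ := fl_spec (4 * u - 6 * y - 6 + q) (2 * q) (-3) 2 (by omega) (by linarith) (by linarith)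
  obtain ⟨l3, u3, c3, d3⟩ := fl_spec (2 * u + q) (2 * q) 0 1 (by omega) (by linarith) (by linarith)
  obtain ⟨l4, u4, c4, d4⟩ := fl_spec (u - 1) q (-1) 0 hq0 (by linarith) (by linarith)
  obtain ⟨l5, u5, c5, d5⟩ := fl_spec (u - 1 - y) q (-1) 0 hq0 (by linarith) (by linarith)
  obtain ⟨l6, u6, c6, d6⟩ := fl_spec (u + y) q 0 1 hq0 (by linarith) (by linarith)
  obtain ⟨l7, u7, c7, d7⟩ := fl_spec (4 * u - 2) q (-1) 3 hq0 (by linarith) (by linarith)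
  obtain ⟨l8, u8, c8, d8⟩ := fl_spec (2 * u + 1) q 0 1 hq0 (by linarith) (by linarith)
  obtain ⟨l9, u9, c9, d9⟩ := fl_spec (2 * y + 1) q 0 1 hq0 (by linarith) (by linarith)
  obtain ⟨l10, u10, c10, d10⟩ := fl_spec (2 * y) q 0 1 hq0 (by linarith) (by linarith)
  obtain ⟨l11, u11, c11, d11⟩ := fl_spec (2 * u) q 0 1 hq0 (by linarith) (by linarith)
  generalize (4 * u + 6 * y + q) / (2 * q) = X1 at *
  generalize (4 * u - 6 * y - 6 + q) / (2 * q) = X2 at *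
  generalize (2 * u + q) / (2 * q) = X3 at *
  generalize (u - 1) / q = X4 at *
  generalize (u - 1 - y) / q = X5 at *
  generalize (u + y) / q = X6 at *
  generalize (4 * u - 2) / q = X7 at *
  generalize (2 * u + 1) / q = X8 at *
  generalize (2 * y + 1) / q = X9 at *
  generalize (2 * y) / q = X10 at *
  generalize (2 * u) / q = X11 at *
  clear hD
  obtain ⟨r, rfl⟩ : ∃ r, q = 2 * r + 1 := ⟨q / 2, by omega⟩
  refine ⟨fun h => ?_, fun h => ?_⟩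
  · have h3 := hdvd h
    clear hdvd h
    interval_cases X7 <;> interval_cases X3 <;> (try omega) <;> interval_cases X8 <;> (try omega) <;>
      interval_cases X4 <;> (try omega) <;> interval_cases X11 <;> (try omega) <;>
      interval_cases X9 <;> interval_cases X10 <;> (try omega) <;>
      interval_cases X5 <;> (try omega) <;> interval_cases X6 <;> (try omega) <;>
      interval_cases X1 <;> (try omega) <;> interval_cases X2 <;> omega
  · clear hdvd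
    interval_cases X7 <;> interval_cases X3 <;> (try omega) <;> interval_cases X8 <;> (try omega) <;>
      interval_cases X4 <;> (try omega) <;> interval_cases X11 <;> (try omega) <;>
      interval_cases X9 <;> interval_cases X10 <;> (try omega) <;>
      interval_cases X5 <;> (try omega) <;> interval_cases X6 <;> (try omega) <;>
      interval_cases X1 <;> (try omega) <;> interval_cases X2 <;> omega

theorem W_three (n k : ℤ) (h : (3 : ℤ) ∣ (2 * n + 1)) :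
    1 ≤ W 3 n k + ((2 * n + 1) / 3 - (2 * n) / 3) := by
  unfold W
  omega

theorem odd_pow {p : ℕ} (hp : p.Prime) (h2 : p ≠ 2) {l : ℕ} (hl : 1 ≤ l) :
    (3 : ℤ) ≤ (p : ℤ) ^ l ∧ ((p : ℤ) ^ l) % 2 = 1 ∧ ((p : ℤ) ^ l = 3 ∨ 5 ≤ (p : ℤ) ^ l) := by
  have h1 : Odd p := hp.odd_of_ne_two h2
  have h3 : Odd (p ^ l) := h1.pow
  have h4 : (p ^ l) % 2 = 1 := Nat.odd_iff.mp h3
  have h5 : 3 ≤ p := by
    have := hp.two_le
    rcases h1 with ⟨r, hr⟩
    omega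
  have h6 : 3 ≤ p ^ l := by
    calc 3 ≤ p := h5
      _ = p ^ 1 := (pow_one p).symm
      _ ≤ p ^ l := Nat.pow_le_pow_right hp.pos hl
  have h7 : p ^ l = 3 ∨ 5 ≤ p ^ l := by omega
  exact ⟨by exact_mod_cast h6, by exact_mod_cast h4, by exact_mod_cast h7⟩

theorem three_iff {p : ℕ} (hp : p.Prime) {l : ℕ} (hl : 1 ≤ l) (h : (p : ℤ) ^ l = 3) : p = 3 := by
  have h1 : p ^ l = 3 := by exact_mod_cast h
  have h2 : p ∣ 3 := by rw [← h1]; exact dvd_pow_self p (by omega)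
  exact (Nat.prime_dvd_prime_iff_eq hp Nat.prime_three).mp h2

/-- valuation of an integer factor -/
theorem val_nat {p : ℕ} [hp : Fact p.Prime] {n : ℕ} (hn : n ≠ 0) :
    HasVal p (n : ℚ) (fun i => (n : ℤ) / (p : ℤ) ^ i - ((n : ℤ) - 1) / (p : ℤ) ^ i) := by
  rw [natCast_pow_mul_fac hn]
  refine ((HasVal.fac n).div (HasVal.fac (n - 1))).congr fun i _ => ?_
  have : ((n - 1 : ℕ) : ℤ) = (n : ℤ) - 1 := by omega
  rw [this]

theorem core_val {p : ℕ} [hp : Fact p.Prime] (h2 : p ≠ 2) (k m : ℕ) :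
    HasVal p ((2 * (k : ℚ) + 1) * core k m) (fun i => W ((p : ℤ) ^ i) ((k : ℤ) + m + 1) k) := by
  have h1 : HasVal p (2 * (k : ℚ) + 1) (fun i => (2 * (k : ℤ) + 1) / (p : ℤ) ^ i -
      (2 * (k : ℤ)) / (p : ℤ) ^ i) := by
    have := val_nat (p := p) (n := 2 * k + 1) (by omega)
    push_cast at this
    refine this.congr fun i _ => ?_
    rw [add_sub_cancel_right]
  unfold core
  refine (h1.mul ((((((((HasVal.hgv h2 (5 * (k : ℤ) + 2 * m + 2)).mul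
    (HasVal.hgv h2 (2 * (m : ℤ) - k - 1))).mul (HasVal.hgv h2 ((k : ℤ) + m + 1))).mul
    (HasVal.hgv h2 ((k : ℤ) + m + 1)))).mul (HasVal.fac (k + m))).mul (HasVal.fac (k + m + 1))).div
    ((((HasVal.fac m).mul (HasVal.fac (2 * k + m + 1))).mul (HasVal.fac (4 * k + 4 * m + 2))).mul
    (HasVal.fac (2 * k + 2 * m + 3))))).congr fun i _ => ?_
  unfold W
  push_cast
  rw [show 2 * ((k : ℤ) + m + 1) + 3 * k = 5 * k + 2 * m + 2 by ring,
    show 2 * ((k : ℤ) + m + 1) - 3 * k - 3 = 2 * m - k - 1 by ring,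
    show (k : ℤ) + m + 1 - 1 - k = m by ring, show (k : ℤ) + m + 1 - 1 = k + m by ring,
    show (k : ℤ) + m + 1 + k = 2 * k + m + 1 by ring,
    show 4 * ((k : ℤ) + m + 1) - 2 = 4 * k + 4 * m + 2 by ring,
    show 2 * ((k : ℤ) + m + 1) + 1 = 2 * k + 2 * m + 3 by ring]
  ring

theorem t_mem {p : ℕ} [hp : Fact p.Prime] (h2 : p ≠ 2) (k m : ℕ) (h : ¬ p ∣ 2 * k + 2 * m + 3) :
    t k m ∈ Zp p := by
  unfold t
  refine (Zp p).mul_mem ?_ ((core_val h2 k m).mem fun l hl => ?_)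
  · have h1 : (-8 : ℚ) * 4096 ^ (k + m) = (((-8) * 4096 ^ (k + m) : ℤ) : ℚ) := by
      push_cast; ring
    rw [h1]
    exact intCast_mem_Zp _
  · obtain ⟨h3, h4, _⟩ := odd_pow hp.out h2 hl
    refine (W_aux _ _ _ h3 h4).1 fun hc => h ?_
    have h5 : (p : ℤ) ∣ (p : ℤ) ^ l := dvd_pow_self _ (by omega)
    have h6 := h5.trans hc
    rw [show 2 * ((k : ℤ) + m + 1) + 1 = ((2 * k + 2 * m + 3 : ℕ) : ℤ) by push_cast; ring] at h6
    exact_mod_cast h6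

theorem val_three {p : ℕ} [hp : Fact p.Prime] :
    HasVal p (3 : ℚ) (fun i => (3 : ℤ) / (p : ℤ) ^ i - 2 / (p : ℤ) ^ i) := by
  have := val_nat (p := p) (n := 3) (by omega)
  push_cast at this
  exact this.congr fun i _ => by norm_num

theorem half_mem {p : ℕ} [hp : Fact p.Prime] (h2 : p ≠ 2) : (1 / 2 : ℚ) ∈ Zp p := by
  have := inv_nat_mem_Zp (p := p) (c := 2) (fun hd => h2
    ((Nat.prime_dvd_prime_iff_eq hp.out Nat.prime_two).mp hd))
  exact_mod_cast this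

theorem E_mem {p : ℕ} [hp : Fact p.Prime] (h2 : p ≠ 2) (k m : ℕ) (h : p ∣ 2 * k + 2 * m + 3) :
    E k m ∈ Zp p := by
  have hv : HasVal p ((2 * (k : ℚ) + 1) * (2 * (k : ℚ) + 2 * m + 3) * core k m / 3) (fun i =>
      W ((p : ℤ) ^ i) ((k : ℤ) + m + 1) k + ((2 * ((k : ℤ) + m + 1) + 1) / (p : ℤ) ^ i -
        (2 * ((k : ℤ) + m + 1)) / (p : ℤ) ^ i) - ((3 : ℤ) / (p : ℤ) ^ i - 2 / (p : ℤ) ^ i)) := by
    have h1 : HasVal p (2 * (k : ℚ) + 2 * m + 3) (fun i => (2 * ((k : ℤ) + m + 1) + 1) / (p : ℤ) ^ i -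
        (2 * ((k : ℤ) + m + 1)) / (p : ℤ) ^ i) := by
      have := val_nat (p := p) (n := 2 * k + 2 * m + 3) (by omega)
      push_cast at this
      refine this.congr fun i _ => ?_
      rw [show 2 * ((k : ℤ) + m + 1) + 1 = 2 * k + 2 * m + 3 by ring,
        show 2 * ((k : ℤ) + m + 1) = 2 * k + 2 * m + 3 - 1 by ring]
    rw [show (2 * (k : ℚ) + 1) * (2 * (k : ℚ) + 2 * m + 3) * core k m / 3 =
      ((2 * (k : ℚ) + 1) * core k m) * (2 * (k : ℚ) + 2 * m + 3) / 3 by ring]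
    exact ((core_val h2 k m).mul h1).div val_three
  unfold E
  refine (Zp p).mul_mem ?_ (hv.mem fun l hl => ?_)
  · have h1 : -(1 / 2 : ℚ) * 4096 ^ (k + m) * (33 - 108 * k * (k + 1) + 16 * (k + m + 1) *
        (7 * (k + m + 1) - 8)) = (1 / 2) * (((-4096 ^ (k + m) * (33 - 108 * k * (k + 1) +
          16 * (k + m + 1) * (7 * (k + m + 1) - 8)) : ℤ)) : ℚ) := by
      push_cast; ring
    rw [h1]
    exact (Zp p).mul_mem (half_mem h2) (intCast_mem_Zp _)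
  · obtain ⟨h3, h4, h5⟩ := odd_pow hp.out h2 hl
    rcases h5 with h5 | h5
    · have hp3 := three_iff hp.out hl h5
      subst hp3
      have h6 := W_three ((k : ℤ) + m + 1) k (by
        have : ((3 : ℕ) : ℤ) ∣ ((2 * k + 2 * m + 3 : ℕ) : ℤ) := by exact_mod_cast h
        push_cast at this
        rw [show 2 * ((k : ℤ) + m + 1) + 1 = 2 * k + 2 * m + 3 by ring]
        exact this)
      simp only [h5]
      norm_num
      linarith
    · have h6 := (W_aux _ ((k : ℤ) + m + 1) k h3 h4).2 h5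
      have h7 : (3 : ℤ) / (p : ℤ) ^ l = 0 := Int.ediv_eq_zero_of_lt (by norm_num) (by omega)
      have h8 : (2 : ℤ) / (p : ℤ) ^ l = 0 := Int.ediv_eq_zero_of_lt (by norm_num) (by omega)
      simp only [h7, h8]
      linarith

/-- valuation count of the boundary term -/
def V (q n : ℤ) : ℤ :=
  ((2 * (2 * n) + q) / (2 * q) + (2 * (2 * n) + q) / (2 * q) + (2 * n + q) / (2 * q) +
    (2 * n + q) / (2 * q) + n / q) - ((n - 1) / q + (4 * n - 2) / q + (2 * n + 1) / q)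

theorem V_nonneg (q n : ℤ) (hq : 5 ≤ q) (hodd : q % 2 = 1) : 0 ≤ V q n := by
  have h0 : q ≠ 0 := by omega
  have hq0 : 0 < q := by omega
  have h20 : 2 * q ≠ 0 := by omega
  obtain ⟨c, u, hu0, hu1, rfl⟩ : ∃ c u : ℤ, 0 ≤ u ∧ u < q ∧ n = u + q * c :=
    ⟨n / q, n % q, Int.emod_nonneg _ h0, Int.emod_lt_of_pos _ hq0, (Int.emod_add_mul_ediv n q).symm⟩
  unfold V
  rw [show 2 * (2 * (u + q * c)) + q = (4 * u + q) + (2 * q) * (2 * c) by ring,
    show 2 * (u + q * c) + q = (2 * u + q) + (2 * q) * c by ring,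
    show u + q * c - 1 = (u - 1) + q * c by ring,
    show 4 * (u + q * c) - 2 = (4 * u - 2) + q * (4 * c) by ring,
    show 2 * (u + q * c) + 1 = (2 * u + 1) + q * (2 * c) by ring]
  simp only [Int.add_mul_ediv_left _ _ h0, Int.add_mul_ediv_left _ _ h20]
  rw [Int.ediv_eq_zero_of_lt hu0 hu1]
  obtain ⟨l1, u1, c1, d1⟩ := fl_spec (4 * u + q) (2 * q) 0 2 (by omega) (by linarith) (by linarith)
  obtain ⟨l3, u3, c3, d3⟩ := fl_spec (2 * u + q) (2 * q) 0 1 (by omega) (by linarith) (by linarith)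
  obtain ⟨l4, u4, c4, d4⟩ := fl_spec (u - 1) q (-1) 0 hq0 (by linarith) (by linarith)
  obtain ⟨l7, u7, c7, d7⟩ := fl_spec (4 * u - 2) q (-1) 3 hq0 (by linarith) (by linarith)
  obtain ⟨l8, u8, c8, d8⟩ := fl_spec (2 * u + 1) q 0 1 hq0 (by linarith) (by linarith)
  generalize (4 * u + q) / (2 * q) = X1 at *
  generalize (2 * u + q) / (2 * q) = X3 at *
  generalize (u - 1) / q = X4 at *
  generalize (4 * u - 2) / q = X7 at *
  generalize (2 * u + 1) / q = X8 at *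
  obtain ⟨r, rfl⟩ : ∃ r, q = 2 * r + 1 := ⟨q / 2, by omega⟩
  interval_cases X7 <;> interval_cases X3 <;> (try omega) <;> interval_cases X8 <;> (try omega) <;>
      interval_cases X4 <;> (try omega) <;> interval_cases X1 <;> omega

theorem V_three (n : ℤ) (h : (3 : ℤ) ∣ (2 * n + 1)) : 1 ≤ V 3 n := by
  unfold V
  omega

theorem A_mem {p : ℕ} [hp : Fact p.Prime] (h2 : p ≠ 2) (m : ℕ) (h : p ∣ 2 * m + 3) :
    A (m + 1) 0 ∈ Zp p := by
  have hv : HasVal p ((hg (2 * ((m : ℤ) + 1)) * hg (2 * ((m : ℤ) + 1)) * hg ((m : ℤ) + 1) *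
      hg ((m : ℤ) + 1) * ((m + 1)! : ℚ)) / ((m ! : ℚ) * ((4 * m + 2)! : ℚ) * ((2 * m + 3)! : ℚ)) / 3)
      (fun i => V ((p : ℤ) ^ i) ((m : ℤ) + 1) - ((3 : ℤ) / (p : ℤ) ^ i - 2 / (p : ℤ) ^ i)) := by
    refine ((((((HasVal.hgv h2 (2 * ((m : ℤ) + 1))).mul (HasVal.hgv h2 (2 * ((m : ℤ) + 1)))).mul
      (HasVal.hgv h2 ((m : ℤ) + 1))).mul (HasVal.hgv h2 ((m : ℤ) + 1))).mul
      (HasVal.fac (m + 1))).div (((HasVal.fac m).mul (HasVal.fac (4 * m + 2))).mul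
      (HasVal.fac (2 * m + 3)))).div val_three |>.congr fun i _ => ?_
    unfold V
    push_cast
    rw [show (m : ℤ) + 1 - 1 = m by ring, show 4 * ((m : ℤ) + 1) - 2 = 4 * m + 2 by ring,
      show 2 * ((m : ℤ) + 1) + 1 = 2 * m + 3 by ring]
  have h1 : A (m + 1) 0 = ((-4 * 4096 ^ m : ℤ) : ℚ) * ((hg (2 * ((m : ℤ) + 1)) *
      hg (2 * ((m : ℤ) + 1)) * hg ((m : ℤ) + 1) *
      hg ((m : ℤ) + 1) * ((m + 1)! : ℚ)) / ((m ! : ℚ) * ((4 * m + 2)! : ℚ) * ((2 * m + 3)! : ℚ)) / 3) := by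
    have h1 : rf (((m + 1 : ℕ) : ℤ) - 1 - (0 : ℕ)) = 1 / (m ! : ℚ) := by
      rw [show ((m + 1 : ℕ) : ℤ) - 1 - (0 : ℕ) = (m : ℤ) by push_cast; ring, rf_nat]
    have h2 : rf (((m + 1 : ℕ) : ℤ) + (0 : ℕ) - 1) = 1 / (m ! : ℚ) := by
      rw [show ((m + 1 : ℕ) : ℤ) + (0 : ℕ) - 1 = (m : ℤ) by push_cast; ring, rf_nat]
    have h3 : hg (2 * ((m + 1 : ℕ) : ℤ) + 3 * (0 : ℕ)) = hg (2 * ((m : ℤ) + 1)) := by
      congr 1
    have h4 : hg (2 * ((m + 1 : ℕ) : ℤ) - 3 * (0 : ℕ)) = hg (2 * ((m : ℤ) + 1)) := by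
      congr 1
    have h5 : hg ((m + 1 : ℕ) : ℤ) = hg ((m : ℤ) + 1) := by
      congr 1
    unfold A
    rw [h1, h2, h3, h4, h5, show 4 * (m + 1) - 2 = 4 * m + 2 by omega,
      show 2 * (m + 1) + 1 = 2 * m + 3 by ring, Nat.add_sub_cancel]
    have z1 : (m ! : ℚ) ≠ 0 := by positivity
    have z3 : ((2 * m + 3)! : ℚ) ≠ 0 := by positivity
    have z5 : ((4 * m + 2)! : ℚ) ≠ 0 := by positivity
    push_cast
    field_simp
    try ring
  rw [h1]
  refine (Zp p).mul_mem (intCast_mem_Zp _) (hv.mem fun l hl => ?_)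
  obtain ⟨h3, h4, h5⟩ := odd_pow hp.out h2 hl
  rcases h5 with h5 | h5
  · have hp3 := three_iff hp.out hl h5
    subst hp3
    have h6 := V_three ((m : ℤ) + 1) (by
      have : ((3 : ℕ) : ℤ) ∣ ((2 * m + 3 : ℕ) : ℤ) := by exact_mod_cast h
      push_cast at this
      rw [show 2 * ((m : ℤ) + 1) + 1 = 2 * m + 3 by ring]
      exact this)
    simp only [h5]
    norm_num
    linarith
  · have h6 := V_nonneg _ ((m : ℤ) + 1) h5 h4
    have h7 : (3 : ℤ) / (p : ℤ) ^ l = 0 := Int.ediv_eq_zero_of_lt (by norm_num) (by omega)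
    have h8 : (2 : ℤ) / (p : ℤ) ^ l = 0 := Int.ediv_eq_zero_of_lt (by norm_num) (by omega)
    simp only [h7, h8]
    linarith

/-- integrality away from `2` -/
theorem a_mem {p : ℕ} [hp : Fact p.Prime] (h2 : p ≠ 2) (n : ℕ) (hn : 1 ≤ n) : a n ∈ Zp p := by
  by_cases h : p ∣ 2 * n + 1
  · rw [a_eq' n hn]
    refine (Zp p).add_mem ?_ ((Zp p).sum_mem fun i hi => ?_)
    · obtain ⟨k, rfl⟩ : ∃ k, n = k + 1 := ⟨n - 1, by omega⟩
      exact A_mem h2 k (by rwa [show 2 * k + 3 = 2 * (k + 1) + 1 by ring])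
    · have hi' := Finset.mem_range.mp hi
      refine E_mem h2 _ _ ?_
      convert h using 1
      omega
  · rw [a_eq n hn]
    refine (Zp p).sum_mem fun i hi => t_mem h2 _ _ ?_
    have hi' := Finset.mem_range.mp hi
    intro hc
    apply h
    convert hc using 1
    omega

local instance : Fact (Nat.Prime 2) := ⟨Nat.prime_two⟩

/-- the 2-adic valuation of a factorial as an integer -/
noncomputable def vf (n : ℕ) : ℤ := ((n !).factorization 2 : ℤ)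

theorem val_fac (n : ℕ) : padicValRat 2 (n ! : ℚ) = vf n := by
  unfold vf
  rw [padicValRat.of_nat, Nat.factorization_def _ Nat.prime_two]

theorem vf_even (n : ℕ) : vf (2 * n) = vf n + n := by
  unfold vf; rw [v2_even]; push_cast; ring

theorem vf_odd (n : ℕ) : vf (2 * n + 1) = vf n + n := by
  unfold vf; rw [v2_odd]; push_cast; ring

theorem vf_lt {n : ℕ} (h : n ≠ 0) : vf n < n := by
  unfold vf; exact_mod_cast v2_lt h

theorem vf_mono {m n : ℕ} (h : m ≤ n) : vf m ≤ vf n := by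
  unfold vf
  have : (m !).factorization 2 ≤ (n !).factorization 2 :=
    (Nat.factorization_le_iff_dvd (Nat.factorial_ne_zero _) (Nat.factorial_ne_zero _)).mpr
      (Nat.factorial_dvd_factorial h) 2
  exact_mod_cast this

theorem vf_zero : vf 0 = 0 := by
  unfold vf; simp

/-- integrality at `2` -/
theorem a_mem_two (n : ℕ) (hn : 2 ≤ n) : a n ∈ Zp 2 := by
  obtain ⟨m, rfl⟩ : ∃ m, n = m + 1 := ⟨n - 1, by omega⟩
  unfold a
  rw [Finset.sum_div]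
  refine (Zp 2).sum_mem fun k hk => ?_
  have hk' := Finset.mem_range.mp hk
  rw [norm_eq, show m + 1 - 1 - k = m - k by omega]
  have h1 : (28 * (k : ℚ) + 3) * M k * (-12288) ^ (m - k) /
      (2 * ((2 * m + 3)! : ℚ) / ((m ! : ℚ) * ((m + 1)! : ℚ)))
      = (((28 * k + 3) * (-3) ^ (m - k) : ℤ) : ℚ) *
        (2 ^ (12 * (m - k)) * ((4 * k)! : ℚ) * (m ! : ℚ) * ((m + 1)! : ℚ) /
          ((k ! : ℚ) ^ 4 * 2 * ((2 * m + 3)! : ℚ))) := by
    have h2 : (-12288 : ℚ) ^ (m - k) = (-3) ^ (m - k) * 2 ^ (12 * (m - k)) := by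
      rw [pow_mul, ← mul_pow]; norm_num
    unfold M
    rw [h2]
    have z1 : (m ! : ℚ) ≠ 0 := by positivity
    have z2 : ((m + 1)! : ℚ) ≠ 0 := by positivity
    have z3 : ((2 * m + 3)! : ℚ) ≠ 0 := by positivity
    have z4 : (k ! : ℚ) ≠ 0 := by positivity
    push_cast
    field_simp
  rw [h1]
  refine (Zp 2).mul_mem (intCast_mem_Zp _) ?_
  have z1 : (m ! : ℚ) ≠ 0 := by positivity
  have z2 : ((m + 1)! : ℚ) ≠ 0 := by positivity
  have z3 : ((2 * m + 3)! : ℚ) ≠ 0 := by positivity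
  have z4 : (k ! : ℚ) ≠ 0 := by positivity
  have z5 : ((4 * k)! : ℚ) ≠ 0 := by positivity
  have z6 : (2 : ℚ) ^ (12 * (m - k)) ≠ 0 := by positivity
  rw [mem_Zp_iff (by positivity), padicValRat.div (by positivity) (by positivity),
    padicValRat.mul (by positivity) z2, padicValRat.mul (by positivity) z1,
    padicValRat.mul z6 z5, padicValRat.mul (by positivity) z3,
    padicValRat.mul (by positivity) (by norm_num), padicValRat.pow, padicValRat.pow,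
    val_fac, val_fac, val_fac, val_fac, val_fac]
  have h2 : padicValRat 2 (2 : ℚ) = 1 := by
    have := padicValRat.self (p := 2) (by norm_num)
    exact_mod_cast this
  rw [h2, show 4 * k = 2 * (2 * k) by ring, vf_even, vf_even,
    show 2 * m + 3 = 2 * (m + 1) + 1 by ring, vf_odd]
  have h3 := vf_mono (show k ≤ m by omega)
  have h4 : vf k ≤ k := by
    rcases Nat.eq_zero_or_pos k with h | h
    · subst h; rw [vf_zero]; simp
    · exact (vf_lt h.ne').le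
  push_cast
  have h5 : ((m - k : ℕ) : ℤ) = (m : ℤ) - k := by omega
  rw [h5]
  rcases Nat.eq_zero_or_pos k with h | h
  · subst h
    rw [vf_zero] at h3 ⊢
    push_cast
    omega
  · have h6 := vf_lt h.ne'
    have : (k : ℤ) ≤ m := by omega
    omega

theorem M_pos (k : ℕ) : 0 < M k := by unfold M; positivity

theorem M_succ (k : ℕ) : M (k + 1) ≤ 256 * M k := by
  unfold M
  rw [show 4 * (k + 1) = 4 * k + 1 + 1 + 1 + 1 by ring, Nat.factorial_succ, Nat.factorial_succ,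
    Nat.factorial_succ, Nat.factorial_succ, Nat.factorial_succ k, div_le_iff₀ (by positivity)]
  have z4 : (0 : ℚ) < (k ! : ℚ) := by positivity
  have z5 : (0 : ℚ) < ((4 * k)! : ℚ) := by positivity
  have h : 256 * (((4 * k)! : ℚ) / (k ! : ℚ) ^ 4) * (((k + 1) * k ! : ℕ) : ℚ) ^ 4
      = 256 * ((k : ℚ) + 1) ^ 4 * ((4 * k)! : ℚ) := by
    push_cast
    field_simp
  rw [h]
  push_cast
  have hk : (0 : ℚ) ≤ k := by positivity
  have h3 : (4 * (k : ℚ) + 4) * (4 * k + 3) * (4 * k + 2) * (4 * k + 1) ≤ 256 * ((k : ℚ) + 1) ^ 4 := by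
    nlinarith [mul_nonneg hk hk, mul_nonneg (mul_nonneg hk hk) hk]
  refine le_trans (le_of_eq ?_) (mul_le_mul_of_nonneg_right h3 z5.le)
  ring

/-- Q1. For every `n ≥ 2` the number `(-1)^(n-1) a_n` is a positive integer. -/
theorem result (n : ℕ) (hn : 2 ≤ n) : ∃ z : ℤ, (-1) ^ (n - 1) * a n = z ∧ 0 < z := by
  have hint : ∃ z : ℤ, a n = z := by
    refine int_of_forall_mem fun p hp => ?_
    by_cases h2 : p = 2
    · subst h2
      exact a_mem_two n hn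
    · exact a_mem h2 n (by omega)
  have hpos : 0 < (-1) ^ (n - 1) * a n := by
    obtain ⟨m, rfl⟩ : ∃ m, n = m + 1 := ⟨n - 1, by omega⟩
    have h1 := alt_pos 12288 (by norm_num) (fun k => (28 * (k : ℚ) + 3) * M k)
      (fun k => by have := M_pos k; positivity) (fun k => by
        have h2 := M_succ k
        have h3 := M_pos k
        have hk : (0 : ℚ) ≤ k := by positivity
        push_cast
        have h4 : (28 * ((k : ℚ) + 1) + 3) * M (k + 1) ≤ (28 * ((k : ℚ) + 1) + 3) * (256 * M k) :=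
          mul_le_mul_of_nonneg_left h2 (by positivity)
        nlinarith [mul_nonneg hk h3.le]) m
    unfold a
    rw [show m + 1 - 1 = m by omega, ← mul_div_assoc]
    have h2 : 0 < (2 * (m + 1)).choose (m + 1) := Nat.choose_pos (by omega)
    refine div_pos ?_ (by positivity)
    simpa using h1
  obtain ⟨z, hz⟩ := hint
  refine ⟨(-1) ^ (n - 1) * z, by rw [hz]; push_cast; ring, ?_⟩
  rw [hz] at hpos
  exact_mod_cast hpos

end Pool.Agent.Results.MP_14414a_nt.SignedIntegrality
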